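import Pool.Agent.H84.FK.Targets2

/-!
Module D4 of the board fk2_modules (MP_85c4d1_al).
-/

set_option autoImplicit false

namespace Pool.Agent.H12.FK2

open Pool.Agent.H84.FK

theorem card_two {G : Type} [Group G] (A A0 : Subgroup G) (h : Two A A0) (s : G) (hs : s ∈ A)
    (hs0 : s ∉ A0) : Nat.card A = 2 * Nat.card A0 := by
  have h1 : (A0.subgroupOf A).index = 2 := by
    rw [Subgroup.index_eq_two_iff]
    refine ⟨⟨s, hs⟩, fun b => ?_⟩
    rw [Subgroup.mem_subgroupOf, Subgroup.mem_subgroupOf]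
    by_cases hb : (b : G) ∈ A0
    · right
      refine ⟨hb, fun h2 => hs0 ?_⟩
      have h3 := A0.mul_mem (A0.inv_mem hb) h2
      simpa using h3
    · left
      exact ⟨h.2 b b.2 s hs hb hs0, hb⟩
  have h2 := Subgroup.card_mul_index (A0.subgroupOf A)
  rw [h1, Nat.card_congr (Subgroup.subgroupOfEquivOfLe h.1).toEquiv] at h2
  omega

theorem pf_d4 (hF1 : T_F1) (hD3 : T_D3) : T_D4 := by
  intro G _ A A0 B B0 hC
  haveI := hC.fin
  have hA : ¬ Ab A := fun h => hC.ns (hF1 G A B B0 hC.fac h hC.abB hC.twoB)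
  have hfac' : Fac B A := by
    intro g
    obtain ⟨a, ha, b, hb, h⟩ := hC.fac g⁻¹
    refine ⟨b⁻¹, B.inv_mem hb, a⁻¹, A.inv_mem ha, ?_⟩
    rw [← mul_inv_rev, ← h, inv_inv]
  have hB : ¬ Ab B := fun h => hC.ns (hF1 G B A A0 hfac' h hC.abA hC.twoA)
  have hs : ∃ s ∈ A, s ∉ A0 := by
    by_contra hcon
    push Not at hcon
    exact hA fun x hx y hy => hC.abA x (hcon x hx) y (hcon y hy)
  have ht : ∃ t ∈ B, t ∉ B0 := by
    by_contra hcon
    push Not at hcon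
    exact hB fun x hx y hy => hC.abB x (hcon x hx) y (hcon y hy)
  obtain ⟨s, hs1, hs2⟩ := hs
  obtain ⟨t, ht1, ht2⟩ := ht
  have cA := card_two A A0 hC.twoA s hs1 hs2
  have cB := card_two B B0 hC.twoB t ht1 ht2
  have cG : Nat.card G = Nat.card A * Nat.card B := by
    rw [← Nat.card_prod]
    refine (Nat.card_congr (Equiv.ofBijective (fun p : A × B => (p.1 : G) * (p.2 : G)) ⟨?_, ?_⟩)).symm
    · rintro ⟨⟨a, ha⟩, ⟨b, hb⟩⟩ ⟨⟨a', ha'⟩, ⟨b', hb'⟩⟩ h
      simp only at h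
      have h1 : a'⁻¹ * a = 1 := by
        refine hD3 G A A0 B B0 hC 1 (a'⁻¹ * a) (b' * b⁻¹) (A.mul_mem (A.inv_mem ha') ha)
          (B.mul_mem hb' (B.inv_mem hb)) ?_
        have h2 : a = a' * b' * b⁻¹ := by rw [← h]; group
        rw [h2]; group
      have h2 : a = a' := by
        have := congrArg (fun z => a' * z) h1
        simpa using this
      subst h2
      have h3 : b = b' := mul_left_cancel h
      subst h3
      rfl
    · intro g
      obtain ⟨a, ha, b, hb, h⟩ := hC.fac g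
      exact ⟨(⟨a, ha⟩, ⟨b, hb⟩), h.symm⟩
  refine ⟨⟨s, hs1, hs2⟩, ⟨t, ht1, ht2⟩, cA, cB, ?_, hA, hB⟩
  rw [cG, cA, cB]; ring

end Pool.Agent.H12.FK2
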