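import Pool.Agent.H84.FK.Targets3

/-!
Module LA of the board fk2_modules (MP_85c4d1_al).
-/

set_option autoImplicit false

namespace Pool.Agent.H12.FK2

open Pool.Agent.H84.FK

theorem one_of_pow_two {G : Type} [Group G] {x : G} (h : ¬ 2 ∣ orderOf x) (h2 : x * x = 1) :
    x = 1 := by
  have h3 : orderOf x ∣ 2 := orderOf_dvd_of_pow_eq_one (by rw [sq]; exact h2)
  rcases (Nat.dvd_prime Nat.prime_two).1 h3 with h4 | h4
  · exact orderOf_eq_one_iff.1 h4
  · exact absurd (by rw [h4]) h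

theorem one_of_pow_four {G : Type} [Group G] {x : G} (h : ¬ 2 ∣ orderOf x)
    (h2 : (x * x) * (x * x) = 1) : x = 1 := by
  have h3 : orderOf x ∣ 2 ^ 2 := orderOf_dvd_of_pow_eq_one (by
    rw [show (2 : ℕ) ^ 2 = 2 * 2 by norm_num, pow_mul, sq, sq]; exact h2)
  obtain ⟨k, _, hk⟩ := (Nat.dvd_prime_pow Nat.prime_two).1 h3
  rcases Nat.eq_zero_or_pos k with h5 | h5
  · rw [h5] at hk
    exact orderOf_eq_one_iff.1 (by simpa using hk)
  · exact absurd (by rw [hk]; exact dvd_pow_self 2 (by omega)) h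

theorem pf_la (hLA1 : T_LA1) : T_LA := by
  intro G _ M R U z h hv
  obtain ⟨v, hvR, hv1, hz1M⟩ := hv
  haveI := h.fin
  by_contra hU
  have hUM : ∀ x ∈ U, x ∈ M := fun x hx => ((h.odd x).1 hx).1
  have hUo : ∀ x ∈ U, ¬ 2 ∣ orderOf x := fun x hx => ((h.odd x).1 hx).2
  have ordc : ∀ g x : G, orderOf (g * x * g⁻¹) = orderOf x := fun g x => by
    have := orderOf_injective (MulAut.conj g).toMonoidHom (MulAut.conj g).injective x
    simpa using this
  have hUn : ∀ m ∈ M, ∀ x ∈ U, m * x * m⁻¹ ∈ U := by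
    intro m hm x hx
    rw [h.odd, ordc]
    exact ⟨M.mul_mem (M.mul_mem hm (hUM x hx)) (M.inv_mem hm), hUo x hx⟩
  -- squares act trivially
  have hsq : ∀ m ∈ M, ∀ x ∈ U, m⁻¹ * x * m = m * x * m⁻¹ := by
    intro m hm x hx
    have := h.sq m hm x hx
    calc m⁻¹ * x * m = m⁻¹ * (x * (m * m)) * m⁻¹ := by group
      _ = m⁻¹ * ((m * m) * x) * m⁻¹ := by rw [this]
      _ = m * x * m⁻¹ := by group
  have hcomm : ∀ a ∈ M, ∀ m ∈ M, ∀ x ∈ U, a * (m * x * m⁻¹) * a⁻¹ = m * (a * x * a⁻¹) * m⁻¹ := by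
    intro a ha m hm x hx
    have h1 := hsq (m * a) (M.mul_mem hm ha) x hx
    have h2 : (m * a)⁻¹ * x * (m * a) = a⁻¹ * (m⁻¹ * x * m) * a := by group
    have h3 : (m * a) * x * (m * a)⁻¹ = m * (a * x * a⁻¹) * m⁻¹ := by group
    rw [h2, h3, hsq m hm x hx, hsq a ha _ (hUn m hm x hx)] at h1
    exact h1
  -- minimal normalised subgroup
  let P : Subgroup G → Prop := fun X => X ≤ U ∧ X ≠ ⊥ ∧ ∀ m ∈ M, ∀ x ∈ X, m * x * m⁻¹ ∈ X
  have hPU : P U := ⟨le_rfl, hU, hUn⟩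
  obtain ⟨X, hX, hmin⟩ : ∃ X : Subgroup G, P X ∧ ∀ Y : Subgroup G, P Y → Nat.card X ≤ Nat.card Y := by
    classical
    have hex : ∃ n : ℕ, ∃ X : Subgroup G, P X ∧ Nat.card X = n := ⟨_, U, hPU, rfl⟩
    obtain ⟨X, hX, hc⟩ := Nat.find_spec hex
    refine ⟨X, hX, fun Y hY => ?_⟩
    rw [hc]
    exact Nat.find_min' hex ⟨Y, hY, rfl⟩
  obtain ⟨hXU, hXb, hXn⟩ := hX
  have hXmin : ∀ Y : Subgroup G, Y ≤ X → Y ≠ ⊥ → (∀ m ∈ M, ∀ x ∈ Y, m * x * m⁻¹ ∈ Y) →
      ∀ x ∈ X, x ∈ Y := by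
    intro Y hYX hYb hYn x hx
    have h1 : Y = X := Subgroup.eq_of_le_of_card_ge hYX (hmin Y ⟨hYX.trans hXU, hYb, hYn⟩)
    rw [h1]; exact hx
  -- every element of M centralises or inverts X
  have hdich : ∀ m ∈ M, ∀ x ∈ X, m * x * m⁻¹ = x ∨ m * x * m⁻¹ = x⁻¹ := by
    intro m hm
    let Y : Subgroup G :=
      { carrier := {x | x ∈ X ∧ m * x = x * m}
        one_mem' := ⟨X.one_mem, by simp⟩
        mul_mem' := by
          rintro a b ⟨ha, ha'⟩ ⟨hb, hb'⟩
          refine ⟨X.mul_mem ha hb, ?_⟩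
          rw [← mul_assoc, ha', mul_assoc, hb', mul_assoc]
        inv_mem' := by
          rintro a ⟨ha, ha'⟩
          refine ⟨X.inv_mem ha, ?_⟩
          calc m * a⁻¹ = a⁻¹ * (a * m) * a⁻¹ := by group
            _ = a⁻¹ * (m * a) * a⁻¹ := by rw [ha']
            _ = a⁻¹ * m := by group }
    have hYdef : ∀ x, x ∈ Y ↔ x ∈ X ∧ m * x = x * m := fun x => Iff.rfl
    have hYn : ∀ a ∈ M, ∀ x ∈ Y, a * x * a⁻¹ ∈ Y := by
      intro a ha x hx
      obtain ⟨hx1, hx2⟩ := (hYdef x).1 hx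
      refine (hYdef _).2 ⟨hXn a ha x hx1, ?_⟩
      have h1 := hcomm m hm a ha x (hXU hx1)
      have h2 : m * x * m⁻¹ = x := by rw [hx2]; group
      rw [h2] at h1
      calc m * (a * x * a⁻¹) = (m * (a * x * a⁻¹) * m⁻¹) * m := by group
        _ = (a * x * a⁻¹) * m := by rw [h1]
    by_cases hYb : Y = ⊥
    · intro x hx
      right
      have hmx : m * x * m⁻¹ ∈ X := hXn m hm x hx
      have ht : x * (m * x * m⁻¹) ∈ Y := by
        refine (hYdef _).2 ⟨X.mul_mem hx hmx, ?_⟩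
        have hc := h.abU x (hXU hx) _ (hXU hmx)
        have hs := h.sq m hm x (hXU hx)
        calc m * (x * (m * x * m⁻¹)) = (m * x * m⁻¹) * ((m * m) * x) * m⁻¹ := by group
          _ = (m * x * m⁻¹) * (x * (m * m)) * m⁻¹ := by rw [hs]
          _ = ((m * x * m⁻¹) * x) * m := by group
          _ = (x * (m * x * m⁻¹)) * m := by rw [hc]
      rw [hYb, Subgroup.mem_bot] at ht
      exact (inv_eq_of_mul_eq_one_right ht).symm
    · intro x hx
      left
      have := ((hYdef x).1 (hXmin Y (fun y hy => ((hYdef y).1 hy).1) hYb hYn x hx)).2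
      rw [this]; group
  -- the elements z1 and k
  set z1 : G := v⁻¹ * z * v with hz1def
  have z11 : z1 * z1 = 1 := by
    have : z1 * z1 = v⁻¹ * (z * z) * v := by rw [hz1def]; group
    rw [this, h.inv]; group
  have z1i : z1⁻¹ = z1 := inv_eq_of_mul_eq_one_left z11
  have hinv : ∀ y ∈ U, z1 * y * z1⁻¹ = y⁻¹ := hLA1 G M R U z h v hvR hv1 hz1M
  have key : ∀ x ∈ X, x ≠ 1 → x⁻¹ * z1 * x = v * z * v⁻¹ := by
    intro x hx hx1
    have hxU := hXU hx
    obtain ⟨m, hm, w, hw, hg⟩ := h.fac (v * x)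
    have hmz : m * z = z * m := (h.cen m).2 hm
    have e1 : x⁻¹ * z1 * x = w⁻¹ * z * w := by
      calc x⁻¹ * z1 * x = (v * x)⁻¹ * z * (v * x) := by rw [hz1def]; group
        _ = (m * w)⁻¹ * z * (m * w) := by rw [hg]
        _ = w⁻¹ * m⁻¹ * (z * m) * w := by group
        _ = w⁻¹ * m⁻¹ * (m * z) * w := by rw [hmz]
        _ = w⁻¹ * z * w := by group
    have hwM : w⁻¹ * z * w ∈ M := by
      rw [← e1]
      exact M.mul_mem (M.mul_mem (M.inv_mem (hUM x hxU)) hz1M) (hUM x hxU)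
    have hvw : v * w = w * v := h.abR v hvR w hw
    have c1 : (w⁻¹ * z * w) * z = z * (w⁻¹ * z * w) := (h.cen _).2 hwM
    have c2 : z1 * z = z * z1 := (h.cen _).2 hz1M
    set k : G := (v * w)⁻¹ * z * (v * w) with hk
    have ck1 : k * z1 = z1 * k := by
      calc k * z1 = (w * v)⁻¹ * z * (w * v) * (v⁻¹ * z * v) := by rw [hk, hvw, hz1def]
        _ = v⁻¹ * ((w⁻¹ * z * w) * z) * v := by group
        _ = v⁻¹ * (z * (w⁻¹ * z * w)) * v := by rw [c1]
        _ = (v⁻¹ * z * v) * ((w * v)⁻¹ * z * (w * v)) := by group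
        _ = z1 * k := by rw [hk, hvw, hz1def]
    have ck2 : k * (x⁻¹ * z1 * x) = (x⁻¹ * z1 * x) * k := by
      rw [e1]
      calc k * (w⁻¹ * z * w) = w⁻¹ * (z1 * z) * w := by rw [hk, hz1def]; group
        _ = w⁻¹ * (z * z1) * w := by rw [c2]
        _ = (w⁻¹ * z * w) * k := by rw [hk, hz1def]; group
    have hxx : z1 * (x⁻¹ * z1 * x) = x * x := by
      have h1 := hinv x⁻¹ (U.inv_mem hxU)
      rw [inv_inv, z1i] at h1
      calc z1 * (x⁻¹ * z1 * x) = (z1 * x⁻¹ * z1) * x := by group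
        _ = x * x := by rw [h1]
    have ck3 : k * (x * x) = (x * x) * k := by
      rw [← hxx, ← mul_assoc, ck1, mul_assoc, ck2, ← mul_assoc]
    have hx2 : x * x ≠ 1 := fun h2 => hx1 (one_of_pow_two (hUo x hxU) h2)
    have hxxX : x * x ∈ X := X.mul_mem hx hx
    have hYX : Subgroup.zpowers (x * x) ≤ X := by
      rw [Subgroup.zpowers_le]; exact hxxX
    have hkM : k ∈ M := by
      refine h.nor (Subgroup.zpowers (x * x)) (hYX.trans hXU) ?_ ?_ k ?_
      · intro hb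
        rw [Subgroup.zpowers_eq_bot] at hb
        exact hx2 hb
      · intro m' hm' y hy
        rcases hdich m' hm' y (hYX hy) with h1 | h1
        · rw [h1]; exact hy
        · rw [h1]; exact Subgroup.inv_mem _ hy
      · intro y hy
        obtain ⟨n, hn⟩ := Subgroup.mem_zpowers_iff.1 hy
        have hc : Commute k y := by
          rw [← hn]
          exact (show Commute k (x * x) from ck3).zpow_right n
        have : k * y * k⁻¹ = y := by rw [hc.eq]; group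
        rw [this]; exact hy
    by_cases hvw1 : v * w = 1
    · rw [e1, show w = v⁻¹ from (inv_eq_of_mul_eq_one_right hvw1).symm, inv_inv]
    · exfalso
      have h1 := hLA1 G M R U z h (v * w) (R.mul_mem hvR hw) hvw1 hkM (x * x) (hXU hxxX)
      rw [← hk, ck3, mul_inv_cancel_right] at h1
      refine hx1 (one_of_pow_four (hUo x hxU) ?_)
      nth_rewrite 2 [h1]
      rw [mul_inv_cancel]
  obtain ⟨x, hx, hx1⟩ : ∃ x ∈ X, x ≠ 1 := by
    by_contra hcon
    push Not at hcon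
    exact hXb (by
      rw [eq_bot_iff]
      intro x hx
      rw [Subgroup.mem_bot]
      exact hcon x hx)
  have k1 := key x hx hx1
  have k2 := key x⁻¹ (X.inv_mem hx) (by simpa using hx1)
  rw [inv_inv] at k2
  have h3 : z1 * (x * x) = (x * x) * z1 := by
    calc z1 * (x * x) = x * (x⁻¹ * z1 * x) * x := by group
      _ = x * (x * z1 * x⁻¹) * x := by rw [k1, k2]
      _ = (x * x) * z1 := by group
  have h4 := hinv (x * x) (hXU (X.mul_mem hx hx))
  rw [h3, mul_inv_cancel_right] at h4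
  refine hx1 (one_of_pow_four (hUo x (hXU hx)) ?_)
  nth_rewrite 2 [h4]
  rw [mul_inv_cancel]

end Pool.Agent.H12.FK2
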